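import Mathlib
import Pool.Agent.Helper540.Cara

set_option autoImplicit false

namespace Pool.Agent.Results.MP_2482e1_an.SharpNorms

open Metric Set Filter Topology Pool.Agent.Helper540

/-- The Caratheodory family on the Euclidean unit ball of `ℂ^n`: holomorphic maps `h` with
`h 0 = 0`, `Dh(0) = I` and `Re ⟨h z, z⟩ > 0` off the origin. -/
def caraFamily (n : ℕ) : Set (EuclideanSpace ℂ (Fin n) → EuclideanSpace ℂ (Fin n)) :=
  {h | DifferentiableOn ℂ h (ball 0 1) ∧ h 0 = 0 ∧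
    fderiv ℂ h 0 = ContinuousLinearMap.id ℂ (EuclideanSpace ℂ (Fin n)) ∧
    ∀ z ∈ ball (0 : EuclideanSpace ℂ (Fin n)) 1, z ≠ 0 → 0 < (inner ℂ z (h z)).re}

/-- The homogeneous part `P_m(z) = (1/m!) D^m h(0)(z,...,z)`. -/
noncomputable def homPart {n : ℕ} (m : ℕ)
    (h : EuclideanSpace ℂ (Fin n) → EuclideanSpace ℂ (Fin n)) (z : EuclideanSpace ℂ (Fin n)) :
    EuclideanSpace ℂ (Fin n) :=
  ((m.factorial : ℂ)⁻¹) • iteratedFDeriv ℂ m h 0 (fun _ => z)

/-- `‖P_m‖`, the supremum of `‖P_m(z)‖` over the unit sphere. -/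
noncomputable def homNorm {n : ℕ} (m : ℕ)
    (h : EuclideanSpace ℂ (Fin n) → EuclideanSpace ℂ (Fin n)) : ℝ :=
  sSup ((fun z => ‖homPart m h z‖) '' sphere (0 : EuclideanSpace ℂ (Fin n)) 1)

theorem homPart_eq {n : ℕ} (m : ℕ) {h : EuclideanSpace ℂ (Fin n) → EuclideanSpace ℂ (Fin n)}
    (hd : DifferentiableOn ℂ h (ball 0 1)) (z : EuclideanSpace ℂ (Fin n)) :
    homPart m h z = tc m (fun t : ℂ => h (t • z)) := (tc_slice one_pos hd m z).symm

theorem norm_homPart_le {n m : ℕ} (hm : 2 ≤ m)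
    {h : EuclideanSpace ℂ (Fin n) → EuclideanSpace ℂ (Fin n)} (hh : h ∈ caraFamily n)
    {z : EuclideanSpace ℂ (Fin n)} (hz : ‖z‖ = 1) :
    ‖homPart m h z‖ ≤ Real.sqrt (((m : ℝ) + 1) ^ (m + 1) / (m : ℝ) ^ m) := by
  obtain ⟨hd, h0, h1, hpos⟩ := hh
  rw [homPart_eq m hd]
  refine norm_tc_le hd h0 h1 (fun w hw => ?_) hm hz
  rcases eq_or_ne w 0 with hw0 | hw0
  · simp [hw0]
  · exact (hpos w hw hw0).le

/-- Weighted arithmetic-geometric inequality in the form needed here. -/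
theorem amgm (m : ℕ) (hm : 2 ≤ m) {s t : ℝ} (hs : 0 ≤ s) (ht : 0 ≤ t) :
    ((m : ℝ) + 1) ^ (m + 1) / (m : ℝ) ^ m * (s * t ^ m) ≤ (s + t) ^ (m + 1) := by
  have hm0 : (0 : ℝ) < m := by exact_mod_cast (by omega : 0 < m)
  have h := Real.geom_mean_le_arith_mean2_weighted (w₁ := 1 / ((m : ℝ) + 1))
    (w₂ := m / ((m : ℝ) + 1)) (p₁ := ((m : ℝ) + 1) * s) (p₂ := ((m : ℝ) + 1) / m * t)
    (by positivity) (by positivity) (by positivity) (by positivity) (by field_simp; ring)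
  have e1 : 1 / ((m : ℝ) + 1) * (((m : ℝ) + 1) * s) + m / ((m : ℝ) + 1) * (((m : ℝ) + 1) / m * t)
      = s + t := by
    field_simp
  rw [e1] at h
  have h2 := pow_le_pow_left₀ (by positivity) h (m + 1)
  refine le_trans (le_of_eq ?_) h2
  have e5 : ∀ p w : ℝ, 0 ≤ p → (p ^ w) ^ (m + 1) = p ^ (w * ((m + 1 : ℕ) : ℝ)) := by
    intro p w hp
    rw [Real.rpow_mul hp, Real.rpow_natCast]
  rw [mul_pow, e5 _ _ (by positivity), e5 _ _ (by positivity)]
  have e2 : 1 / ((m : ℝ) + 1) * ((m + 1 : ℕ) : ℝ) = 1 := by push_cast; field_simp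
  have e3 : (m : ℝ) / ((m : ℝ) + 1) * ((m + 1 : ℕ) : ℝ) = m := by push_cast; field_simp
  rw [e2, e3, Real.rpow_one, Real.rpow_natCast, mul_pow, div_pow, pow_succ]
  field_simp

section Extremal

variable {n : ℕ}

/-- The extremal map `z + A z_1^m e_0`. -/
noncomputable def ext (i j : Fin n) (A : ℝ) (m : ℕ) :
    EuclideanSpace ℂ (Fin n) → EuclideanSpace ℂ (Fin n) :=
  fun z => z + ((A : ℂ) * (z j) ^ m) • EuclideanSpace.single i (1 : ℂ)

theorem hasFDerivAt_proj (j : Fin n) (z : EuclideanSpace ℂ (Fin n)) :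
    HasFDerivAt (fun z : EuclideanSpace ℂ (Fin n) => z j)
      (EuclideanSpace.proj j : EuclideanSpace ℂ (Fin n) →L[ℂ] ℂ) z :=
  (EuclideanSpace.proj j : EuclideanSpace ℂ (Fin n) →L[ℂ] ℂ).hasFDerivAt

theorem ext_mem (i j : Fin n) (hij : i ≠ j) (m : ℕ) (hm : 2 ≤ m) :
    ext i j (Real.sqrt (((m : ℝ) + 1) ^ (m + 1) / (m : ℝ) ^ m)) m ∈ caraFamily n := by
  set A : ℝ := Real.sqrt (((m : ℝ) + 1) ^ (m + 1) / (m : ℝ) ^ m) with hA
  have hA0 : 0 ≤ A := Real.sqrt_nonneg _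
  have hA2 : A ^ 2 = ((m : ℝ) + 1) ^ (m + 1) / (m : ℝ) ^ m := Real.sq_sqrt (by positivity)
  have hm0 : m ≠ 0 := by omega
  have hm1 : m - 1 ≠ 0 := by omega
  have hderiv : ∀ z, HasFDerivAt (ext i j A m)
      (ContinuousLinearMap.id ℂ (EuclideanSpace ℂ (Fin n)) +
        ((A : ℂ) • ((m : ℂ) * (z j) ^ (m - 1)) •
          (EuclideanSpace.proj j : EuclideanSpace ℂ (Fin n) →L[ℂ] ℂ)).smulRight
            (EuclideanSpace.single i (1 : ℂ))) z := by
    intro z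
    have h1 := (hasFDerivAt_proj j z).pow m
    have h2 := h1.const_mul (A : ℂ)
    have h3 := h2.smul_const (EuclideanSpace.single i (1 : ℂ))
    have h4 := (hasFDerivAt_id z).add h3
    refine h4.congr_fderiv ?_
    ext w k
    simp
  refine ⟨fun z _ => (hderiv z).differentiableAt.differentiableWithinAt, ?_, ?_, ?_⟩
  · simp [ext, hm0]
  · rw [(hderiv 0).fderiv]
    ext w k
    simp [hm1]
  · intro z hz hz0
    rw [mem_ball_zero_iff] at hz
    have hzp : 0 < ‖z‖ := norm_pos_iff.2 hz0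
    have e1 : inner ℂ z (ext i j A m z) = ((‖z‖ ^ 2 : ℝ) : ℂ) +
        (A : ℂ) * ((z j) ^ m * (starRingEnd ℂ) (z i)) := by
      rw [ext, inner_add_right, inner_smul_right, inner_self_eq_norm_sq_to_K]
      have : inner ℂ z (EuclideanSpace.single i (1 : ℂ)) = (starRingEnd ℂ) (z i) := by
        simp [EuclideanSpace.inner_single_right]
      rw [this]
      push_cast
      simp only [Complex.coe_algebraMap]
      ring
    rw [e1, Complex.add_re, Complex.ofReal_re, Complex.re_ofReal_mul]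
    have e2 : -(‖z j‖ ^ m * ‖z i‖) ≤ ((z j) ^ m * (starRingEnd ℂ) (z i)).re := by
      have := Complex.abs_re_le_norm ((z j) ^ m * (starRingEnd ℂ) (z i))
      rw [norm_mul, norm_pow, Complex.norm_conj] at this
      linarith [neg_abs_le ((z j) ^ m * (starRingEnd ℂ) (z i)).re]
    have e3 : ‖z i‖ ^ 2 + ‖z j‖ ^ 2 ≤ ‖z‖ ^ 2 := by
      rw [EuclideanSpace.norm_sq_eq]
      calc ‖z i‖ ^ 2 + ‖z j‖ ^ 2 = ∑ k ∈ ({i, j} : Finset (Fin n)), ‖z k‖ ^ 2 := by
            rw [Finset.sum_pair hij]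
        _ ≤ ∑ k, ‖z k‖ ^ 2 := Finset.sum_le_univ_sum_of_nonneg (fun k => by positivity)
    have e4 : (A * (‖z j‖ ^ m * ‖z i‖)) ^ 2 ≤ (‖z‖ ^ (m + 1)) ^ 2 := by
      calc (A * (‖z j‖ ^ m * ‖z i‖)) ^ 2
          = ((m : ℝ) + 1) ^ (m + 1) / (m : ℝ) ^ m * (‖z i‖ ^ 2 * (‖z j‖ ^ 2) ^ m) := by
            rw [mul_pow, hA2]; ring
        _ ≤ (‖z i‖ ^ 2 + ‖z j‖ ^ 2) ^ (m + 1) := amgm m hm (by positivity) (by positivity)
        _ ≤ (‖z‖ ^ 2) ^ (m + 1) := by gcongr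
        _ = (‖z‖ ^ (m + 1)) ^ 2 := by ring
    have e5 : A * (‖z j‖ ^ m * ‖z i‖) ≤ ‖z‖ ^ (m + 1) :=
      (pow_le_pow_iff_left₀ (by positivity) (by positivity) two_ne_zero).1 e4
    have e6 : ‖z‖ ^ (m + 1) < ‖z‖ ^ 2 := by
      have h7 : ‖z‖ ^ (m + 1) = ‖z‖ ^ 2 * ‖z‖ ^ (m - 1) := by
        rw [← pow_add]; congr 1; omega
      have h8 : ‖z‖ ^ (m - 1) < 1 := pow_lt_one₀ hzp.le hz hm1
      rw [h7]
      nlinarith [pow_pos hzp 2]
    nlinarith [mul_le_mul_of_nonneg_left e2 hA0]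

theorem homPart_ext (i j : Fin n) (m : ℕ) (hm : 2 ≤ m) (A : ℝ)
    (hd : DifferentiableOn ℂ (ext i j A m) (ball 0 1)) :
    homPart m (ext i j A m) (EuclideanSpace.single j (1 : ℂ)) =
      (A : ℂ) • EuclideanSpace.single i (1 : ℂ) := by
  rw [homPart_eq m hd]
  have e1 : (fun t : ℂ => ext i j A m (t • EuclideanSpace.single j (1 : ℂ))) =
      fun t : ℂ => t ^ 1 • EuclideanSpace.single j (1 : ℂ) +
        t ^ m • ((A : ℂ) • EuclideanSpace.single i (1 : ℂ)) := by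
    ext1 t
    simp only [ext, pow_one, smul_smul]
    congr 2
    simp
    ring
  rw [e1, tc_add m (by fun_prop) (by fun_prop), tc_pow_smul, tc_pow_smul, if_neg (by omega),
    if_pos rfl, zero_add]

end Extremal

/-- For all `n, m ≥ 2` the sharp upper bound of `‖P_m‖` over the Caratheodory family of the unit
ball of `ℂ^n` is `C_{m,n} = (m+1)^((m+1)/2) / m^(m/2)`, and it is attained. -/
theorem result (n m : ℕ) (hn : 2 ≤ n) (hm : 2 ≤ m) :
    IsGreatest (homNorm m '' caraFamily n)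
      (Real.sqrt (((m : ℝ) + 1) ^ (m + 1) / (m : ℝ) ^ m)) := by
  set A : ℝ := Real.sqrt (((m : ℝ) + 1) ^ (m + 1) / (m : ℝ) ^ m) with hA
  have hA0 : 0 ≤ A := Real.sqrt_nonneg _
  let i : Fin n := ⟨0, by omega⟩
  let j : Fin n := ⟨1, by omega⟩
  have hij : i ≠ j := by simp [i, j]
  have hle : ∀ h ∈ caraFamily n, homNorm m h ≤ A := by
    intro h hh
    apply Real.sSup_le _ hA0
    rintro _ ⟨z, hz, rfl⟩
    exact norm_homPart_le hm hh (by simpa using hz)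
  refine ⟨⟨ext i j A m, ext_mem i j hij m hm, ?_⟩, ?_⟩
  · apply le_antisymm (hle _ (ext_mem i j hij m hm))
    have hbdd : BddAbove ((fun z => ‖homPart m (ext i j A m) z‖) ''
        sphere (0 : EuclideanSpace ℂ (Fin n)) 1) := by
      refine ⟨A, ?_⟩
      rintro _ ⟨z, hz, rfl⟩
      exact norm_homPart_le hm (ext_mem i j hij m hm) (by simpa using hz)
    apply le_csSup hbdd
    refine ⟨EuclideanSpace.single j (1 : ℂ), by simp, ?_⟩
    simp only
    rw [homPart_ext i j m hm A (ext_mem i j hij m hm).1, norm_smul]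
    simp [abs_of_nonneg hA0]
  · rintro _ ⟨h, hh, rfl⟩
    exact hle h hh

end Pool.Agent.Results.MP_2482e1_an.SharpNorms
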